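import Mathlib
import Pool.Agent.W313.HB.Stm4

/-! Project HB, part DONE: squarefree integers in residue classes. -/

set_option autoImplicit false

namespace Pool.Agent.W479.HB

open Finset Pool.Agent.W313.HB

theorem cop_prim {z p : ℕ} (hp : p.Prime) (hz : z < p) (K : ℕ) :
    Nat.Coprime (primorial z ^ K) (p ^ 2) := by
  apply Nat.Coprime.pow
  unfold primorial
  apply Nat.Coprime.prod_left
  intro q hq
  rw [mem_filter, mem_range] at hq
  rw [Nat.coprime_primes hq.2 hp]
  omega

theorem dvd_prim {z p : ℕ} (hp : p.Prime) (hz : p ≤ z) : p ∣ primorial z := by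
  unfold primorial
  apply Finset.dvd_prod_of_mem (fun p => p)
  rw [mem_filter, mem_range]
  exact ⟨by omega, hp⟩

theorem card_class (M H n0 : ℕ) (hM : 0 < M) :
    H / M ≤ ((Icc 1 H).filter (fun y => y ≡ n0 [MOD M])).card := by
  obtain ⟨r, hr1, hr2, hr3⟩ : ∃ r, 1 ≤ r ∧ r ≤ M ∧ r ≡ n0 [MOD M] := by
    by_cases h : n0 % M = 0
    · refine ⟨M, hM, le_refl _, ?_⟩
      unfold Nat.ModEq
      rw [Nat.mod_self, h]
    · exact ⟨n0 % M, Nat.pos_of_ne_zero h, (Nat.mod_lt _ hM).le, Nat.mod_modEq _ _⟩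
  have h := Finset.card_le_card_of_injOn (s := range (H / M))
    (t := (Icc 1 H).filter (fun y => y ≡ n0 [MOD M])) (fun k => r + k * M) ?_ ?_
  · rwa [card_range] at h
  · intro k hk
    have hk' := mem_range.1 (Finset.mem_coe.1 hk)
    have h1 : (k + 1) * M ≤ H := by
      calc (k + 1) * M ≤ (H / M) * M := Nat.mul_le_mul_right _ hk'
        _ ≤ H := Nat.div_mul_le_self _ _
    apply Finset.mem_coe.2
    rw [mem_filter, mem_Icc]
    change (1 ≤ r + k * M ∧ r + k * M ≤ H) ∧ r + k * M ≡ n0 [MOD M]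
    refine ⟨⟨by omega, ?_⟩, ?_⟩
    · rw [add_mul, one_mul] at h1; omega
    · unfold Nat.ModEq at hr3 ⊢
      rw [Nat.add_mul_mod_self_right, hr3]
  · intro k _ k' _ hkk
    have h1 : k * M = k' * M := by
      have : r + k * M = r + k' * M := hkk
      omega
    exact Nat.eq_of_mul_eq_mul_right hM h1

theorem card_class_le (M H : ℕ) (S : Finset ℕ) (hS : ∀ y ∈ S, y ≤ H)
    (hd : ∀ y ∈ S, ∀ y' ∈ S, y ≡ y' [MOD M]) : S.card ≤ H / M + 1 := by
  have h := Finset.card_le_card_of_injOn (s := S) (t := range (H / M + 1)) (fun y => y / M) ?_ ?_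
  · rwa [card_range] at h
  · intro y hy
    apply Finset.mem_coe.2
    rw [mem_range]
    exact Nat.lt_succ_of_le (Nat.div_le_div_right (hS y (Finset.mem_coe.1 hy)))
  · intro y hy y' hy' h
    have h1 := hd y (Finset.mem_coe.1 hy) y' (Finset.mem_coe.1 hy')
    have h2 : y / M = y' / M := h
    rw [← Nat.div_add_mod y M, ← Nat.div_add_mod y' M, h2, h1]

theorem count_nat (z K n0 : ℕ) (hz : 100 ≤ z) (hK : 2 ≤ K) (hn0 : Squarefree n0) (H : ℕ)
    (hH : 100 * (primorial z ^ K) ^ 2 ≤ H) :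
    1 / (2 * ((primorial z ^ K : ℕ) : ℝ)) * (H : ℝ) ≤
    (((Icc 1 H).filter (fun y : ℕ => Squarefree y ∧ y ≡ n0 [MOD primorial z ^ K])).card : ℝ) := by
  classical
  set M := primorial z ^ K with hMdef
  have hM : 0 < M := pow_pos (primorial_pos z) K
  set A := (Icc 1 H).filter (fun y => y ≡ n0 [MOD M]) with hA
  set s := Nat.sqrt H with hs
  set N := (Icc 1 H).filter (fun y : ℕ => Squarefree y ∧ y ≡ n0 [MOD M]) with hN
  set E : ℕ → Finset ℕ := fun m => if m.Prime then A.filter (fun y => m ^ 2 ∣ y) else ∅ with hE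
  have hsub : A ⊆ N ∪ (Ioc z s).biUnion E := by
    intro y hy
    rw [hA, mem_filter, mem_Icc] at hy
    rw [mem_union]
    by_cases hsq : Squarefree y
    · left
      rw [hN, mem_filter, mem_Icc]
      exact ⟨hy.1, hsq, hy.2⟩
    · right
      rw [Nat.squarefree_iff_prime_squarefree] at hsq
      push Not at hsq
      obtain ⟨p, hp, hpy⟩ := hsq
      rw [← pow_two] at hpy
      rw [mem_biUnion]
      refine ⟨p, ?_, ?_⟩
      · rw [mem_Ioc]
        constructor
        · by_contra hpz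
          rw [not_lt] at hpz
          have h1 : p ^ 2 ∣ M := by
            rw [hMdef]
            exact (pow_dvd_pow p hK).trans (pow_dvd_pow_of_dvd (dvd_prim hp hpz) K)
          have h2 : y ≡ n0 [MOD p ^ 2] := hy.2.of_dvd h1
          have h3 : p ^ 2 ∣ n0 := (h2.dvd_iff (dvd_refl _)).1 hpy
          rw [Nat.squarefree_iff_prime_squarefree] at hn0
          exact hn0 p hp (by rwa [← pow_two])
        · rw [hs, Nat.le_sqrt, ← pow_two]
          exact (Nat.le_of_dvd (by omega) hpy).trans hy.1.2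
      · rw [hE]
        simp only [if_pos hp]
        rw [mem_filter, hA, mem_filter, mem_Icc]
        exact ⟨hy, hpy⟩
  have hcardE : ∀ m ∈ Ioc z s, ((E m).card : ℝ) ≤ (H : ℝ) / M * ((m : ℝ) ^ 2)⁻¹ + 1 := by
    intro m hm
    rw [mem_Ioc] at hm
    by_cases hmp : m.Prime
    · have h1 : (E m).card ≤ H / (M * m ^ 2) + 1 := by
        apply card_class_le
        · intro y hy
          rw [hE] at hy
          simp only [if_pos hmp] at hy
          rw [mem_filter, hA, mem_filter, mem_Icc] at hy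
          exact hy.1.1.2
        · intro y hy y' hy'
          rw [hE] at hy hy'
          simp only [if_pos hmp] at hy hy'
          rw [mem_filter, hA, mem_filter, mem_Icc] at hy hy'
          have hc : Nat.Coprime M (m ^ 2) := cop_prim hmp hm.1 K
          rw [← Nat.modEq_and_modEq_iff_modEq_mul hc]
          refine ⟨hy.1.2.trans hy'.1.2.symm, ?_⟩
          exact (Nat.modEq_zero_iff_dvd.2 hy.2).trans (Nat.modEq_zero_iff_dvd.2 hy'.2).symm
      have h2 : ((H / (M * m ^ 2) : ℕ) : ℝ) ≤ (H : ℝ) / ((M * m ^ 2 : ℕ) : ℝ) := Nat.cast_div_le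
      have h3 : ((E m).card : ℝ) ≤ ((H / (M * m ^ 2) : ℕ) : ℝ) + 1 := by exact_mod_cast h1
      refine h3.trans (add_le_add_left (h2.trans (le_of_eq ?_)) 1)
      push_cast
      rw [div_mul_eq_div_div, div_eq_mul_inv]
    · rw [hE]
      simp only [if_neg hmp, card_empty, Nat.cast_zero]
      positivity
  have hsum : (((Ioc z s).biUnion E).card : ℝ) ≤ (H : ℝ) / M * (1 / 100) + s := by
    have h1 : (((Ioc z s).biUnion E).card : ℝ) ≤ ∑ m ∈ Ioc z s, ((E m).card : ℝ) := by
      exact_mod_cast Finset.card_biUnion_le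
    refine h1.trans ((Finset.sum_le_sum hcardE).trans ?_)
    rw [Finset.sum_add_distrib, ← Finset.mul_sum, Finset.sum_const, Nat.card_Ioc, nsmul_eq_mul,
      mul_one]
    have h2 : ((s - z : ℕ) : ℝ) ≤ s := by exact_mod_cast Nat.sub_le s z
    refine add_le_add (mul_le_mul_of_nonneg_left ?_ (by positivity)) h2
    by_cases hzs : z ≤ s
    · have h3 := sum_Ioc_inv_sq_le_sub (α := ℝ) (k := z) (n := s) (by omega) hzs
      have h4 : ((z : ℝ))⁻¹ ≤ 1 / 100 := by
        rw [one_div]
        apply inv_anti₀ (by norm_num)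
        exact_mod_cast hz
      have h5 : (0 : ℝ) ≤ ((s : ℝ))⁻¹ := by positivity
      linarith
    · rw [Finset.Ioc_eq_empty (by omega), Finset.sum_empty]
      norm_num
  have hAN : (A.card : ℝ) ≤ (N.card : ℝ) + (((Ioc z s).biUnion E).card : ℝ) := by
    exact_mod_cast (Finset.card_le_card hsub).trans (Finset.card_union_le _ _)
  have hA1 : ((H / M : ℕ) : ℝ) ≤ A.card := by exact_mod_cast card_class M H n0 hM
  have hM' : (0 : ℝ) < M := by exact_mod_cast hM
  have hA2 : (H : ℝ) / M - 1 ≤ ((H / M : ℕ) : ℝ) := by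
    have h1 : H < M * (H / M) + M := by
      have := Nat.div_add_mod H M
      have := Nat.mod_lt H hM
      omega
    have h2 : (H : ℝ) ≤ M * ((H / M : ℕ) : ℝ) + M := by exact_mod_cast h1.le
    rw [sub_le_iff_le_add, div_le_iff₀ hM']
    linarith
  have hsM : 10 * M ≤ s := by
    rw [hs, Nat.le_sqrt']
    refine le_trans (le_of_eq ?_) hH
    ring
  have hsH : s ^ 2 ≤ H := by rw [hs]; exact Nat.sqrt_le' H
  have hsM' : (10 : ℝ) * M ≤ s := by exact_mod_cast hsM
  have hsH' : (s : ℝ) ^ 2 ≤ H := by exact_mod_cast hsH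
  have h10 : (s : ℝ) ≤ (H : ℝ) / M * (1 / 10) := by
    rw [div_mul_eq_mul_div, le_div_iff₀ hM']
    nlinarith
  have hs1 : (1 : ℝ) ≤ s := by
    have : (1 : ℝ) ≤ M := by exact_mod_cast hM
    linarith
  have e : 1 / (2 * ((M : ℕ) : ℝ)) * (H : ℝ) = (H : ℝ) / M * (1 / 2) := by
    field_simp
  have hpos : (0 : ℝ) ≤ (H : ℝ) / M := by positivity
  rw [e]
  linarith

theorem done_ : S_DONE := by
  classical
  intro z K a0 hz hK ha0
  have hM : 0 < primorial z ^ K := pow_pos (primorial_pos z) K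
  refine ⟨1 / (2 * ((primorial z ^ K : ℕ) : ℝ)), by
    have : (0 : ℝ) < ((primorial z ^ K : ℕ) : ℝ) := by exact_mod_cast hM
    positivity, 100 * (primorial z ^ K) ^ 2, fun H hH => ?_⟩
  have ha00 : a0 ≠ 0 := ha0.ne_zero
  refine (count_nat z K a0.natAbs hz hK (Int.squarefree_natAbs.2 ha0) H hH).trans ?_
  have key : ((Icc 1 H).filter (fun y : ℕ => Squarefree y ∧
      y ≡ a0.natAbs [MOD primorial z ^ K])).card ≤
      ((Icc (-(H : ℤ)) H).filter (fun x : ℤ => Squarefree x ∧ 0 < x * a0 ∧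
      ((primorial z ^ K : ℕ) : ℤ) ∣ x - a0)).card := by
    refine Finset.card_le_card_of_injOn (fun y : ℕ => Int.sign a0 * (y : ℤ)) ?_ ?_
    · intro y hy
      have hy' := Finset.mem_coe.1 hy
      rw [mem_filter, mem_Icc] at hy'
      obtain ⟨⟨hy1, hy2⟩, hy3, hy4⟩ := hy'
      apply Finset.mem_coe.2
      rw [mem_filter, mem_Icc]
      have hdv : ((primorial z ^ K : ℕ) : ℤ) ∣ (y : ℤ) - (a0.natAbs : ℤ) :=
        (Nat.modEq_iff_dvd.1 hy4.symm)
      have hy1' : (1 : ℤ) ≤ y := by exact_mod_cast hy1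
      have hy2' : (y : ℤ) ≤ H := by exact_mod_cast hy2
      rcases lt_or_gt_of_ne ha00 with hneg | hpos
      · have e1 : Int.sign a0 = -1 := Int.sign_eq_neg_one_of_neg hneg
        have e2 : (a0.natAbs : ℤ) = -a0 := Int.ofNat_natAbs_of_nonpos hneg.le
        simp only [e1]
        rw [e2] at hdv
        refine ⟨⟨by omega, by omega⟩, ?_, by nlinarith, ?_⟩
        · rw [neg_one_mul, ← Int.squarefree_natAbs, Int.natAbs_neg, Int.natAbs_natCast]
          exact hy3
        · have : -1 * (y : ℤ) - a0 = -((y : ℤ) - -a0) := by ring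
          rw [this]
          exact hdv.neg_right
      · have e1 : Int.sign a0 = 1 := Int.sign_eq_one_of_pos hpos
        have e2 : (a0.natAbs : ℤ) = a0 := Int.natAbs_of_nonneg hpos.le
        simp only [e1, one_mul]
        rw [e2] at hdv
        refine ⟨⟨by omega, by omega⟩, ?_, by nlinarith, hdv⟩
        rw [← Int.squarefree_natAbs, Int.natAbs_natCast]
        exact hy3
    · intro y _ y' _ h
      have h1 : Int.sign a0 * (y : ℤ) = Int.sign a0 * (y' : ℤ) := h
      have h2 := mul_left_cancel₀ (fun h0 => ha00 (Int.sign_eq_zero_iff_zero.1 h0)) h1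
      exact_mod_cast h2
  exact_mod_cast key

end Pool.Agent.W479.HB
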